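import Mathlib

/-! Coverings of the plane by non-overlapping differentiable arcs. -/

set_option autoImplicit false

open MeasureTheory

namespace Pool.Agent.Q192.ARC

/-- A differentiable arc in the plane `ℂ = ℝ²`, given by a parametrisation: a nondegenerate
interval `I` (open, half-open or closed) and a map `γ` which is a homeomorphism from `I` onto its
image and is differentiable on `I` with nonvanishing derivative (one-sided at included
endpoints). -/
structure DiffArc where
  /-- the parameter interval -/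
  I : Set ℝ
  /-- the parametrisation -/
  γ : ℝ → ℂ
  /-- `I` is an interval -/
  ordConnected : I.OrdConnected
  /-- `I` is nondegenerate -/
  nontrivial : I.Nontrivial
  /-- `γ` is a homeomorphism from `I` onto its image -/
  embedding : Topology.IsEmbedding (I.domRestrict γ)
  /-- `γ` is differentiable with nonvanishing derivative -/
  differentiable : ∀ t ∈ I, ∃ v : ℂ, v ≠ 0 ∧ HasDerivWithinAt γ v I t

/-- The set of points of the arc. -/
def DiffArc.carrier (a : DiffArc) : Set ℂ := a.γ '' a.I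

/-- The length of the arc. -/
noncomputable def DiffArc.length (a : DiffArc) : ENNReal := eVariationOn a.γ a.I

/-- `p` is an endpoint of the arc: a limit point of one of its two ends. -/
def DiffArc.IsEndpoint (a : DiffArc) (p : ℂ) : Prop :=
  (∀ s ∈ a.I, p ∈ closure (a.γ '' (a.I ∩ Set.Ici s))) ∨
    ∀ s ∈ a.I, p ∈ closure (a.γ '' (a.I ∩ Set.Iic s))

/-- `v` is a tangent vector to the arc at its point `p`. -/
def DiffArc.IsTangent (a : DiffArc) (p v : ℂ) : Prop :=
  v ≠ 0 ∧ ∃ t ∈ a.I, a.γ t = p ∧ HasDerivWithinAt a.γ v a.I t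

/-- `𝓕` is a covering of the plane by non-overlapping differentiable rectifiable arcs of length
at least `δ`. -/
def IsCovering (δ : ℝ) (𝓕 : Set DiffArc) : Prop :=
  (∀ a ∈ 𝓕, a.length ≠ ⊤ ∧ ENNReal.ofReal δ ≤ a.length) ∧
    (∀ a ∈ 𝓕, ∀ b ∈ 𝓕, a ≠ b → Disjoint a.carrier b.carrier) ∧
    ∀ p : ℂ, ∃ a ∈ 𝓕, p ∈ a.carrier

/-- The angle between the lines spanned by two nonzero vectors. -/
noncomputable def lineAngle (v w : ℂ) : ℝ :=
  min (InnerProductGeometry.angle v w) (Real.pi - InnerProductGeometry.angle v w)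

/-- Condition (ii) alone: the directions of the tangent lines to the arcs of `𝓕` vary by less
than any given `ε` near `x`. -/
def DirectionsSettleAt (𝓕 : Set DiffArc) (x : ℂ) : Prop :=
  ∀ ε > 0, ∃ N : Set ℂ, IsOpen N ∧ x ∈ N ∧
    ∀ a ∈ 𝓕, ∀ b ∈ 𝓕, ∀ p ∈ N, ∀ q ∈ N, ∀ v w : ℂ,
      a.IsTangent p v → b.IsTangent q w → lineAngle v w < ε

/-- `𝓕` is smooth at `x`: for every `ε > 0` some open neighbourhood `N` of `x` (i) contains no
endpoint of an arc of `𝓕` and (ii) any two tangent lines at points of `N` to the arcs of `𝓕`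
through those points have directions differing by less than `ε`. -/
def SmoothAt (𝓕 : Set DiffArc) (x : ℂ) : Prop :=
  ∀ ε > 0, ∃ N : Set ℂ, IsOpen N ∧ x ∈ N ∧ (∀ a ∈ 𝓕, ∀ p ∈ N, ¬ a.IsEndpoint p) ∧
    ∀ a ∈ 𝓕, ∀ b ∈ 𝓕, ∀ p ∈ N, ∀ q ∈ N, ∀ v w : ℂ,
      a.IsTangent p v → b.IsTangent q w → lineAngle v w < ε

theorem SmoothAt.settle {𝓕 : Set DiffArc} {x : ℂ} (h : SmoothAt 𝓕 x) :
    DirectionsSettleAt 𝓕 x := fun ε hε => by
  obtain ⟨N, h1, h2, -, h3⟩ := h ε hε
  exact ⟨N, h1, h2, h3⟩

end Pool.Agent.Q192.ARC
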