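import Mathlib

/-! A family of analytic curves that fills the plane and oscillates near a closed set. -/

set_option autoImplicit false

open Topology

namespace Pool.Agent.Q192.ARC

/-- The amplitude at distance `d > 0`: the distance from `d` to the powers of two. -/
noncomputable def amp (d : ℝ) : ℝ :=
  min (d - 2 ^ Int.log 2 d) (2 ^ (Int.log 2 d + 1) - d)

/-- The wavelength at distance `d > 0`. -/
noncomputable def wav (d : ℝ) : ℝ := 2 ^ Int.log 2 d

theorem wav_pos (d : ℝ) : 0 < wav d := by unfold wav; positivity

theorem wav_le {d : ℝ} (hd : 0 < d) : wav d ≤ d := by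
  have := Int.zpow_log_le_self (b := 2) (R := ℝ) one_lt_two hd
  simpa [wav] using this

theorem lt_two_wav (d : ℝ) : d < 2 * wav d := by
  have := Int.lt_zpow_succ_log_self (b := 2) (R := ℝ) one_lt_two d
  unfold wav
  push_cast at this
  rw [zpow_add_one₀ two_ne_zero] at this
  linarith

theorem amp_eq (d : ℝ) : amp d = min (d - wav d) (2 * wav d - d) := by
  unfold amp wav
  rw [zpow_add_one₀ two_ne_zero, mul_comm]

theorem amp_nonneg {d : ℝ} (hd : 0 < d) : 0 ≤ amp d := by
  rw [amp_eq]
  exact le_min (by linarith [wav_le hd]) (by linarith [lt_two_wav d])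

theorem amp_le_half (d : ℝ) : amp d ≤ wav d / 2 := by
  rw [amp_eq]
  rcases le_total (d - wav d) (2 * wav d - d) with h | h
  · rw [min_eq_left h]; linarith
  · rw [min_eq_right h]; linarith

/-- The oscillation `(1/2) * amp d * sin (y / wav d)`, and `0` for `d ≤ 0`. -/
noncomputable def osc (d y : ℝ) : ℝ := if d ≤ 0 then 0 else amp d * Real.sin (y / wav d)

theorem abs_osc_le {d : ℝ} (hd : 0 < d) (y : ℝ) : |osc d y| ≤ amp d := by
  unfold osc
  rw [if_neg (not_le.2 hd), abs_mul, abs_of_nonneg (amp_nonneg hd)]
  exact mul_le_of_le_one_right (amp_nonneg hd) (Real.abs_sin_le_one _)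

theorem osc_lip_aux {d e : ℝ} (hd : 0 ≤ d) (h : d < e) (y : ℝ) : |osc e y - osc d y| ≤ e - d := by
  have he : 0 < e := lt_of_le_of_lt hd h
  rcases eq_or_lt_of_le hd with hd0 | hd0
  · have h1 := abs_osc_le he y
    have h2 : osc d y = 0 := by unfold osc; rw [if_pos hd0.ge]
    rw [h2, sub_zero]
    refine h1.trans ?_
    rw [amp_eq]
    refine (min_le_left _ _).trans ?_
    linarith [wav_pos e]
  · rcases eq_or_lt_of_le (Int.log_mono_right (b := 2) hd0 h.le) with hk | hk
    · have hw : wav d = wav e := by unfold wav; rw [hk]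
      have h1 : osc e y - osc d y = (amp e - amp d) * Real.sin (y / wav e) := by
        unfold osc
        rw [if_neg (not_le.2 hd0), if_neg (not_le.2 he), hw]; ring
      rw [h1, abs_mul]
      have h2 : |amp e - amp d| ≤ e - d := by
        rw [amp_eq, amp_eq, hw]
        rw [abs_le]
        constructor
        · rcases le_total (e - wav e) (2 * wav e - e) with h3 | h3 <;>
          rcases le_total (d - wav e) (2 * wav e - d) with h4 | h4 <;>
          simp only [min_eq_left, min_eq_right, h3, h4] <;> linarith
        · rcases le_total (e - wav e) (2 * wav e - e) with h3 | h3 <;>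
          rcases le_total (d - wav e) (2 * wav e - d) with h4 | h4 <;>
          simp only [min_eq_left, min_eq_right, h3, h4] <;> linarith
      calc |amp e - amp d| * |Real.sin (y / wav e)| ≤ |amp e - amp d| * 1 := by
            gcongr; exact Real.abs_sin_le_one _
        _ ≤ e - d := by rw [mul_one]; exact h2
    · have h1 : 2 * wav d ≤ wav e := by
        unfold wav
        have : (2 : ℝ) ^ (Int.log 2 d + 1) ≤ 2 ^ Int.log 2 e :=
          zpow_le_zpow_right₀ one_le_two (by omega)
        rwa [zpow_add_one₀ two_ne_zero, mul_comm] at this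
      have h2 : |osc d y| ≤ 2 * wav d - d :=
        (abs_osc_le hd0 y).trans (by rw [amp_eq]; exact min_le_right _ _)
      have h3 : |osc e y| ≤ e - wav e :=
        (abs_osc_le he y).trans (by rw [amp_eq]; exact min_le_left _ _)
      calc |osc e y - osc d y| ≤ |osc e y| + |osc d y| := abs_sub _ _
        _ ≤ (e - wav e) + (2 * wav d - d) := add_le_add h3 h2
        _ ≤ e - d := by linarith

theorem osc_lip {d e : ℝ} (hd : 0 ≤ d) (he : 0 ≤ e) (y : ℝ) : |osc d y - osc e y| ≤ |d - e| := by
  rcases lt_trichotomy d e with h | h | h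
  · rw [abs_sub_comm, abs_sub_comm d e, abs_of_pos (sub_pos.2 h)]
    exact osc_lip_aux hd h y
  · rw [h]; simp
  · rw [abs_of_pos (sub_pos.2 h)]
    exact osc_lip_aux he h y

variable (K : Set ℝ)

/-- The abscissa at height `y` of the curve with label `x`. -/
noncomputable def F (x y : ℝ) : ℝ := x + osc (Metric.infDist x K) y / 2

theorem F_sub (x x' y : ℝ) : |F K x y - F K x' y - (x - x')| ≤ |x - x'| / 2 := by
  have h1 : F K x y - F K x' y - (x - x') =
      (osc (Metric.infDist x K) y - osc (Metric.infDist x' K) y) / 2 := by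
    unfold F; ring
  rw [h1, abs_div, abs_two]
  have h2 := osc_lip (d := Metric.infDist x K) (e := Metric.infDist x' K)
    Metric.infDist_nonneg Metric.infDist_nonneg y
  have h3 : |Metric.infDist x K - Metric.infDist x' K| ≤ |x - x'| := by
    have := (Metric.lipschitz_infDist_pt K).dist_le_mul x x'
    rw [Real.dist_eq, Real.dist_eq] at this
    simpa using this
  linarith

theorem F_strictMono (y : ℝ) : StrictMono fun x => F K x y := by
  intro x x' h
  have h1 := F_sub K x x' y
  rw [abs_sub_comm x x', abs_of_pos (sub_pos.2 h)] at h1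
  have h2 := (abs_le.1 h1).2
  show F K x y < F K x' y
  linarith

theorem F_continuous (y : ℝ) : Continuous fun x => F K x y := by
  have : LipschitzWith 2 fun x => F K x y := by
    apply LipschitzWith.of_dist_le_mul
    intro x x'
    rw [Real.dist_eq, Real.dist_eq]
    have h1 := F_sub K x x' y
    have h2 : |F K x y - F K x' y| ≤ |F K x y - F K x' y - (x - x')| + |x - x'| := by
      have := abs_add_le (F K x y - F K x' y - (x - x')) (x - x')
      simpa using this
    have : (0 : ℝ) ≤ |x - x'| := abs_nonneg _
    push_cast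
    linarith
  exact this.continuous

theorem F_surjective (y : ℝ) : Function.Surjective fun x => F K x y := by
  intro z
  have hc := F_continuous K y
  have hlo : ∃ a, F K a y ≤ z := by
    refine ⟨min 0 (2 * (z - F K 0 y)), ?_⟩
    set a := min 0 (2 * (z - F K 0 y))
    have ha : a ≤ 0 := min_le_left _ _
    have ha' : a ≤ 2 * (z - F K 0 y) := min_le_right _ _
    have h1 := F_sub K a 0 y
    rw [sub_zero, abs_of_nonpos ha] at h1
    have h2 := (abs_le.1 h1).2
    linarith
  have hhi : ∃ a, z ≤ F K a y := by
    refine ⟨max 0 (2 * (z - F K 0 y)), ?_⟩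
    set a := max 0 (2 * (z - F K 0 y))
    have ha : 0 ≤ a := le_max_left _ _
    have ha' : 2 * (z - F K 0 y) ≤ a := le_max_right _ _
    have h1 := F_sub K a 0 y
    rw [sub_zero, abs_of_nonneg ha] at h1
    have h2 := (abs_le.1 h1).1
    linarith
  exact mem_range_of_exists_le_of_exists_ge hc hlo hhi

/-- The curve with label `x`. -/
noncomputable def curve (x t : ℝ) : ℂ := ⟨F K x t, t⟩

/-- The slope of the curve with label `x`. -/
noncomputable def slope (x t : ℝ) : ℝ :=
  if Metric.infDist x K ≤ 0 then 0 else
    amp (Metric.infDist x K) / (2 * wav (Metric.infDist x K)) *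
      Real.cos (t / wav (Metric.infDist x K))

theorem abs_slope_le (x t : ℝ) : |slope K x t| ≤ 1 / 4 := by
  unfold slope
  split_ifs with h
  · simp
  · rw [not_le] at h
    have hw := wav_pos (Metric.infDist x K)
    have ha := amp_nonneg h
    have ha' := amp_le_half (Metric.infDist x K)
    rw [abs_mul, abs_of_nonneg (by positivity)]
    calc amp (Metric.infDist x K) / (2 * wav (Metric.infDist x K)) * |Real.cos _| ≤
        amp (Metric.infDist x K) / (2 * wav (Metric.infDist x K)) * 1 := by
          gcongr; exact Real.abs_cos_le_one _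
      _ ≤ 1 / 4 := by
          rw [mul_one, div_le_div_iff₀ (by positivity) (by norm_num)]
          linarith

theorem hasDerivAt_F (x t : ℝ) : HasDerivAt (fun t => F K x t) (slope K x t) t := by
  unfold F slope osc
  split_ifs with h
  · simpa using hasDerivAt_const t (x + 0 / 2)
  · have h1 : HasDerivAt (fun t : ℝ => t / wav (Metric.infDist x K))
        (1 / wav (Metric.infDist x K)) t := (hasDerivAt_id t).div_const _
    have h2 := ((h1.sin.const_mul (amp (Metric.infDist x K))).div_const 2).const_add x
    refine h2.congr_deriv ?_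
    have := wav_pos (Metric.infDist x K)
    field_simp

theorem curve_eq (x t : ℝ) : curve K x t = (F K x t : ℂ) + (t : ℂ) * Complex.I := by
  apply Complex.ext <;> simp [curve]

theorem hasDerivAt_curve (x t : ℝ) :
    HasDerivAt (curve K x) ((slope K x t : ℂ) + Complex.I) t := by
  have h1 : HasDerivAt (fun t => (F K x t : ℂ)) (slope K x t : ℂ) t :=
    (hasDerivAt_F K x t).ofReal_comp
  have h2 : HasDerivAt (fun t : ℝ => (t : ℂ) * Complex.I) Complex.I t := by
    have := (Complex.ofRealCLM.hasDerivAt (x := t)).mul_const Complex.I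
    simpa using this
  have h3 := h1.add h2
  refine h3.congr_of_eventuallyEq (Filter.Eventually.of_forall fun s => ?_)
  exact curve_eq K x s

theorem contDiff_curve (x : ℝ) : ContDiff ℝ ⊤ (curve K x) := by
  have h : ContDiff ℝ ⊤ fun t => F K x t := by
    unfold F osc
    split_ifs
    · exact contDiff_const
    · fun_prop
  have h1 : curve K x = fun t => (F K x t : ℂ) + (t : ℂ) * Complex.I := by
    funext t; exact curve_eq K x t
  rw [h1]
  have h2 : ContDiff ℝ ⊤ fun t => (F K x t : ℂ) := Complex.ofRealCLM.contDiff.comp h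
  have h3 : ContDiff ℝ ⊤ fun t : ℝ => (t : ℂ) * Complex.I :=
    Complex.ofRealCLM.contDiff.mul contDiff_const
  exact h2.add h3

theorem continuous_curve (x : ℝ) : Continuous (curve K x) := (contDiff_curve K x).continuous

theorem lipschitz_curve (x : ℝ) : LipschitzWith 2 (curve K x) := by
  apply lipschitzWith_of_nnnorm_deriv_le (fun t => (hasDerivAt_curve K x t).differentiableAt)
  intro t
  rw [(hasDerivAt_curve K x t).deriv]
  have h1 : ‖(slope K x t : ℂ) + Complex.I‖ ≤ 2 := by
    refine (norm_add_le _ _).trans ?_
    rw [Complex.norm_real, Complex.norm_I, Real.norm_eq_abs]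
    linarith [abs_slope_le K x t]
  exact_mod_cast h1

end Pool.Agent.Q192.ARC
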