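import Pool.Agent.Q192.ARC.Fun
import Pool.Agent.Q192.ARC.Defs

/-! The covering of the plane by analytic arcs which is not smooth on a set of positive measure. -/

set_option autoImplicit false

open Topology MeasureTheory

namespace Pool.Agent.Q192.ARC

variable (K : Set ℝ)

theorem isEmbedding_curve (x : ℝ) : IsEmbedding (curve K x) :=
  Function.LeftInverse.isEmbedding (f := Complex.im) (fun _ => rfl) Complex.continuous_im
    (continuous_curve K x)

/-- The arc with label `x` between the heights `n` and `n + 1`. -/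
noncomputable def arc (x : ℝ) (n : ℤ) : DiffArc where
  I := Set.Ico (n : ℝ) (n + 1)
  γ := curve K x
  ordConnected := Set.ordConnected_Ico
  nontrivial := ⟨n, ⟨le_rfl, by linarith⟩, n + 1 / 2, ⟨by linarith, by linarith⟩, by linarith⟩
  embedding := (isEmbedding_curve K x).comp IsEmbedding.subtypeVal
  differentiable := fun t _ => ⟨_, by
    intro h
    have := congrArg Complex.im h
    simp at this, (hasDerivAt_curve K x t).hasDerivWithinAt⟩

theorem arc_γ (x : ℝ) (n : ℤ) : (arc K x n).γ = curve K x := rfl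
theorem arc_I (x : ℝ) (n : ℤ) : (arc K x n).I = Set.Ico (n : ℝ) (n + 1) := rfl

/-- The family of arcs. -/
def fam : Set DiffArc := Set.range fun q : ℝ × ℤ => arc K q.1 q.2

theorem fam_covering : IsCovering (1 / 2) (fam K) := by
  refine ⟨?_, ?_, ?_⟩
  · rintro _ ⟨⟨x, n⟩, rfl⟩
    constructor
    · have h1 : eVariationOn (curve K x ∘ id) (Set.Ico (n : ℝ) (n + 1)) ≤
          (2 : NNReal) * eVariationOn (id : ℝ → ℝ) (Set.Ico (n : ℝ) (n + 1)) :=
        ((lipschitz_curve K x).lipschitzOnWith (s := Set.univ)).comp_eVariationOn_le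
          (fun _ _ => trivial)
      have h2 : eVariationOn (id : ℝ → ℝ) (Set.Ico (n : ℝ) (n + 1)) ≤ ENNReal.ofReal 1 := by
        refine (eVariationOn.mono _ Set.Ico_subset_Icc_self).trans ?_
        have h3 : MonotoneOn (id : ℝ → ℝ) (Set.Icc (n : ℝ) (n + 1)) := monotone_id.monotoneOn _
        have h4 := h3.eVariationOn_eq (a := (n : ℝ)) (b := n + 1) (Set.left_mem_Icc.2 (by linarith))
          (Set.right_mem_Icc.2 (by linarith))
        rw [Set.inter_self] at h4
        rw [h4]
        simp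
      have h5 : eVariationOn (curve K x) (Set.Ico (n : ℝ) (n + 1)) < ⊤ := by
        refine lt_of_le_of_lt h1 ?_
        exact ENNReal.mul_lt_top ENNReal.coe_lt_top (lt_of_le_of_lt h2 ENNReal.ofReal_lt_top)
      exact h5.ne
    · have h1 : edist (curve K x n) (curve K x (n + 1 / 2)) ≤
          eVariationOn (curve K x) (Set.Ico (n : ℝ) (n + 1)) :=
        eVariationOn.edist_le _ ⟨le_rfl, by linarith⟩ ⟨by linarith, by linarith⟩
      refine le_trans ?_ h1
      rw [edist_dist]
      apply ENNReal.ofReal_le_ofReal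
      rw [dist_eq_norm]
      refine le_trans ?_ (Complex.abs_im_le_norm _)
      simp [curve, abs_of_pos]
  · rintro _ ⟨⟨x, n⟩, rfl⟩ _ ⟨⟨x', n'⟩, rfl⟩ hne
    rw [Set.disjoint_left]
    rintro p ⟨t, ht, htp⟩ ⟨t', ht', htp'⟩
    simp only [arc_γ, arc_I] at ht ht' htp htp'
    apply hne
    have h1 : t = t' := by
      have e1 : t = p.im := by rw [← htp]; rfl
      have e2 : t' = p.im := by rw [← htp']; rfl
      rw [e1, e2]
    subst h1
    have h2 : n = n' := by
      have a1 : (n : ℝ) < n' + 1 := lt_of_le_of_lt ht.1 ht'.2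
      have a2 : (n' : ℝ) < n + 1 := lt_of_le_of_lt ht'.1 ht.2
      have b1 : n < n' + 1 := by exact_mod_cast a1
      have b2 : n' < n + 1 := by exact_mod_cast a2
      omega
    have h3 : x = x' := by
      apply (F_strictMono K t).injective
      have e1 : F K x t = p.re := by rw [← htp]; rfl
      have e2 : F K x' t = p.re := by rw [← htp']; rfl
      show F K x t = F K x' t
      rw [e1, e2]
    rw [h2, h3]
  · intro p
    obtain ⟨x, hx⟩ := F_surjective K p.im p.re
    refine ⟨arc K x ⌊p.im⌋, ⟨(x, ⌊p.im⌋), rfl⟩, p.im, ⟨Int.floor_le _, Int.lt_floor_add_one _⟩, ?_⟩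
    exact Complex.ext hx rfl

theorem fam_endpoint {a : DiffArc} (ha : a ∈ fam K) {p : ℂ} (hp : a.IsEndpoint p) :
    ∃ n : ℤ, p.im = n := by
  obtain ⟨⟨x, n⟩, rfl⟩ := ha
  rcases hp with hp | hp
  · refine ⟨n + 1, ?_⟩
    have key : ∀ s ∈ Set.Ico (n : ℝ) (n + 1), s ≤ p.im ∧ p.im ≤ n + 1 := by
      intro s hs
      have h1 := hp s hs
      have hcl : IsClosed {z : ℂ | s ≤ z.im ∧ z.im ≤ n + 1} :=
        (isClosed_le continuous_const Complex.continuous_im).inter
          (isClosed_le Complex.continuous_im continuous_const)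
      refine (closure_minimal ?_ hcl) h1
      rintro _ ⟨t, ⟨ht1, ht2⟩, rfl⟩
      exact ⟨ht2, ht1.2.le⟩
    push_cast
    apply le_antisymm
    · exact (key n ⟨le_rfl, by linarith⟩).2
    · apply le_of_forall_lt
      intro c hc
      have h1 := (key (max n ((c + (n + 1)) / 2)) ⟨le_max_left _ _, max_lt (by linarith)
        (by linarith)⟩).1
      have h2 := le_max_right (n : ℝ) ((c + (n + 1)) / 2)
      linarith
  · refine ⟨n, ?_⟩
    have h1 := hp n ⟨le_rfl, by linarith⟩
    have hcl : IsClosed {z : ℂ | z.im = n} := isClosed_eq Complex.continuous_im continuous_const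
    refine (closure_minimal ?_ hcl) h1
    rintro _ ⟨t, ⟨ht1, ht2⟩, rfl⟩
    exact le_antisymm ht2 ht1.1

theorem lineAngle_pos : 0 < lineAngle (((1 / 4 : ℝ) : ℂ) + Complex.I) (((0 : ℝ) : ℂ) + Complex.I) := by
  unfold lineAngle
  rw [lt_min_iff]
  constructor
  · apply lt_of_le_of_ne (InnerProductGeometry.angle_nonneg _ _)
    intro h
    obtain ⟨-, r, hr, h1⟩ := InnerProductGeometry.angle_eq_zero_iff.1 h.symm
    have := congrArg Complex.re h1
    simp at this
    linarith
  · rw [sub_pos]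
    apply lt_of_le_of_ne (InnerProductGeometry.angle_le_pi _ _)
    intro h
    obtain ⟨-, r, hr, h1⟩ := InnerProductGeometry.angle_eq_pi_iff.1 h
    have := congrArg Complex.re h1
    simp at this
    linarith

theorem not_settle (hKne : K.Nonempty) (hKc : IsClosed K)
    (hK : ∀ x ∈ K, ∀ ε > 0, ∃ x', |x' - x| < ε ∧ x' ∉ K) {p : ℂ} (hp : p.re ∈ K) :
    ¬ DirectionsSettleAt (fam K) p := by
  intro h
  obtain ⟨N, hN, hpN, hdir⟩ := h _ lineAngle_pos
  obtain ⟨ρ, hρ, hball⟩ := Metric.isOpen_iff.1 hN p hpN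
  obtain ⟨x1, hx1, hx1K⟩ := hK p.re hp (ρ / 20) (by positivity)
  set d1 := Metric.infDist x1 K with hd1
  have hd1pos : 0 < d1 := (hKc.notMem_iff_infDist_pos hKne).1 hx1K
  have hd1le : d1 ≤ |x1 - p.re| := by
    have := Metric.infDist_le_dist_of_mem (x := x1) hp
    rwa [Real.dist_eq] at this
  let W : ℝ := 2 ^ (Int.log 2 d1 - 1)
  have hW : 0 < W := by positivity
  have hWd : 2 * W ≤ d1 := by
    have h1 := wav_le hd1pos
    have h2 : 2 * W = wav d1 := by
      simp only [W, wav]
      rw [zpow_sub_one₀ two_ne_zero]; ring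
    rw [h2]; exact h1
  -- a point at distance `3 W / 2`
  obtain ⟨x, hx, hxd⟩ : ∃ x ∈ Set.uIcc p.re x1, Metric.infDist x K = 3 / 2 * W := by
    have hc : ContinuousOn (fun x => Metric.infDist x K) (Set.uIcc p.re x1) :=
      (Metric.continuous_infDist_pt K).continuousOn
    have h1 := intermediate_value_uIcc hc
    have h2 : Metric.infDist p.re K = 0 := Metric.infDist_zero_of_mem hp
    apply h1
    rw [h2, ← hd1, Set.uIcc_of_le hd1pos.le]
    constructor <;> linarith
  have hxdist : |x - p.re| < ρ / 20 := by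
    refine lt_of_le_of_lt ?_ hx1
    exact Set.abs_sub_left_of_mem_uIcc hx
  have hdpos : 0 < 3 / 2 * W := by positivity
  have hlog : Int.log 2 (3 / 2 * W) = Int.log 2 d1 - 1 := by
    have a1 := Int.zpow_log_le_self (b := 2) (R := ℝ) one_lt_two hdpos
    have a2 := Int.lt_zpow_succ_log_self (b := 2) (R := ℝ) one_lt_two (3 / 2 * W)
    push_cast at a1 a2
    have b1 : (2 : ℝ) ^ Int.log 2 (3 / 2 * W) < 2 ^ (Int.log 2 d1 - 1 + 1) := by
      rw [zpow_add_one₀ two_ne_zero]
      refine lt_of_le_of_lt a1 ?_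
      show 3 / 2 * W < W * 2
      linarith
    have b2 : (2 : ℝ) ^ (Int.log 2 d1 - 1) < 2 ^ (Int.log 2 (3 / 2 * W) + 1) := by
      refine lt_of_le_of_lt ?_ a2
      show W ≤ 3 / 2 * W
      linarith
    have c1 := (zpow_lt_zpow_iff_right₀ (one_lt_two : (1 : ℝ) < 2)).1 b1
    have c2 := (zpow_lt_zpow_iff_right₀ (one_lt_two : (1 : ℝ) < 2)).1 b2
    omega
  have hwav : wav (3 / 2 * W) = W := by unfold wav; rw [hlog]
  have hamp : amp (3 / 2 * W) = W / 2 := by
    rw [amp_eq, hwav, min_eq_left (by linarith)]; ring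
  have hslope : ∀ t, slope K x t = Real.cos (t / W) / 4 := by
    intro t
    unfold slope
    rw [hxd, if_neg (not_le.2 hdpos), hwav, hamp]
    field_simp
    ring
  have hFx : ∀ t, |F K x t - x| ≤ W / 4 := by
    intro t
    have h1 : F K x t - x = osc (3 / 2 * W) t / 2 := by unfold F; rw [hxd]; ring
    rw [h1, abs_div, abs_two]
    have := abs_osc_le hdpos t
    rw [hamp] at this
    linarith
  let m : ℤ := ⌈p.im / (2 * Real.pi * W)⌉
  let t1 : ℝ := m * (2 * Real.pi) * W
  let t2 : ℝ := t1 + Real.pi / 2 * W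
  have hπ := Real.pi_pos
  have hπ4 := Real.pi_lt_four
  have hm1 : p.im ≤ t1 := by
    have := Int.le_ceil (p.im / (2 * Real.pi * W))
    rw [div_le_iff₀ (by positivity)] at this
    simp only [t1, m]; linarith
  have hm2 : t1 < p.im + 2 * Real.pi * W := by
    have := Int.ceil_lt_add_one (p.im / (2 * Real.pi * W))
    have h2 : (m : ℝ) * (2 * Real.pi * W) < (p.im / (2 * Real.pi * W) + 1) * (2 * Real.pi * W) :=
      mul_lt_mul_of_pos_right this (by positivity)
    rw [add_mul, div_mul_cancel₀ _ (by positivity), one_mul] at h2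
    simp only [t1]; linarith
  have hc1 : Real.cos (t1 / W) = 1 := by
    have : t1 / W = m * (2 * Real.pi) := by simp only [t1]; field_simp
    rw [this, Real.cos_int_mul_two_pi]
  have hc2 : Real.cos (t2 / W) = 0 := by
    have : t2 / W = Real.pi / 2 + m * (2 * Real.pi) := by simp only [t2, t1]; field_simp; ring
    rw [this, Real.cos_add_int_mul_two_pi, Real.cos_pi_div_two]
  have hWρ : W ≤ ρ / 40 := by linarith
  have hnear : ∀ t, p.im ≤ t → t < p.im + (2 * Real.pi + Real.pi / 2) * W → curve K x t ∈ N := by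
    intro t h1 h2
    apply hball
    rw [Metric.mem_ball, dist_eq_norm]
    refine lt_of_le_of_lt (Complex.norm_le_abs_re_add_abs_im _) ?_
    have e1 : (curve K x t - p).re = F K x t - p.re := rfl
    have e2 : (curve K x t - p).im = t - p.im := rfl
    rw [e1, e2, abs_of_nonneg (by linarith : 0 ≤ t - p.im)]
    have e3 : |F K x t - p.re| ≤ |F K x t - x| + |x - p.re| := abs_sub_le _ _ _
    have e4 := hFx t
    nlinarith
  have hp1 : curve K x t1 ∈ N := hnear t1 hm1 (by nlinarith)
  have hp2 : curve K x t2 ∈ N := hnear t2 (by simp only [t2]; nlinarith) (by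
    simp only [t2]; nlinarith)
  have htan : ∀ t, (arc K x ⌊t⌋).IsTangent (curve K x t) ((slope K x t : ℂ) + Complex.I) := by
    intro t
    refine ⟨?_, t, ⟨Int.floor_le _, Int.lt_floor_add_one _⟩, rfl,
      (hasDerivAt_curve K x t).hasDerivWithinAt⟩
    intro h
    have := congrArg Complex.im h
    simp at this
  have h1 := htan t1
  have h2 := htan t2
  rw [hslope, hc1] at h1
  rw [hslope, hc2, zero_div] at h2
  have h3 := hdir _ ⟨(x, ⌊t1⌋), rfl⟩ _ ⟨(x, ⌊t2⌋), rfl⟩ _ hp1 _ hp2 _ _ h1 h2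
  exact lt_irrefl _ h3

theorem exists_K : ∃ K : Set ℝ, K.Nonempty ∧ IsClosed K ∧ 0 < volume K ∧
    ∀ x ∈ K, ∀ ε > 0, ∃ x', |x' - x| < ε ∧ x' ∉ K := by
  have hmeas : MeasurableSet {x : ℝ | Irrational x} := by
    have : {x : ℝ | Irrational x} = (Set.range ((↑) : ℚ → ℝ))ᶜ := rfl
    rw [this]
    exact (Set.countable_range _).measurableSet.compl
  have hpos : 0 < volume {x : ℝ | Irrational x} := by
    have h1 : volume (Set.range ((↑) : ℚ → ℝ)) = 0 := (Set.countable_range _).measure_zero _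
    have h2 : volume {x : ℝ | Irrational x} = ⊤ := by
      have h3 : (⊤ : ENNReal) ≤ volume (Set.range ((↑) : ℚ → ℝ)) + volume {x : ℝ | Irrational x} := by
        rw [← Real.volume_univ]
        refine le_trans (measure_mono ?_) (measure_union_le _ _)
        intro x _
        by_cases hx : x ∈ Set.range ((↑) : ℚ → ℝ)
        · exact Or.inl hx
        · exact Or.inr hx
      rw [h1, zero_add] at h3
      exact top_le_iff.1 h3
    rw [h2]; exact ENNReal.zero_lt_top
  obtain ⟨K, hKs, hKc, hKpos⟩ := hmeas.exists_lt_isCompact hpos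
  refine ⟨K, ?_, hKc.isClosed, hKpos, ?_⟩
  · by_contra h
    rw [Set.not_nonempty_iff_eq_empty] at h
    rw [h] at hKpos
    simp at hKpos
  · intro x hx ε hε
    obtain ⟨q, hq1, hq2⟩ := exists_rat_btwn (show x < x + ε by linarith)
    refine ⟨q, ?_, fun hq => ?_⟩
    · rw [abs_of_pos (by linarith)]; linarith
    · exact hKs hq ⟨q, rfl⟩

end Pool.Agent.Q192.ARC
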